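import Pool.Agent.Y798.FC.Stm

set_option autoImplicit false

/-! FC-C: the Weyl datum of `USp(2g)`. -/

namespace Pool.Agent.Y674.FC

open Finset MeasureTheory UnitAddTorus Polynomial
open Pool.Agent.Y798.FC

noncomputable section

/-- the characters of the circle -/
def ee (n : ℤ) (y : UnitAddCircle) : ℂ := fourier n y

theorem ee_add (m n : ℤ) (y : UnitAddCircle) : ee (m + n) y = ee m y * ee n y := fourier_add

theorem ee_zero (y : UnitAddCircle) : ee 0 y = 1 := fourier_zero

theorem ee_neg (n : ℤ) (y : UnitAddCircle) : ee (-n) y = starRingEnd ℂ (ee n y) := fourier_neg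

theorem ee_norm (n : ℤ) (y : UnitAddCircle) : ‖ee n y‖ = 1 := Circle.norm_coe _

theorem ee_smul (n m : ℤ) (y : UnitAddCircle) : ee n (m • y) = ee (n * m) y := by
  unfold ee
  rw [fourier_apply, fourier_apply, smul_smul]

theorem ee_pow (k : ℕ) (y : UnitAddCircle) : ee k y = ee 1 y ^ k := by
  induction k with
  | zero => simp [ee_zero]
  | succ k ih => push_cast; rw [ee_add, ih, pow_succ]

theorem ee_mul_neg (y : UnitAddCircle) : ee 1 y * ee (-1) y = 1 := by
  rw [← ee_add]
  simp [ee_zero]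

theorem ee_neg_pow (k : ℕ) (y : UnitAddCircle) : ee (-(k : ℤ)) y = ee (-1) y ^ k := by
  rw [ee_neg, ee_neg, ee_pow, map_pow]

theorem ee_cont (n : ℤ) : Continuous (ee n) := (fourier n).continuous

theorem mF_apply {g : ℕ} (n : Fin g → ℤ) (x : UnitAddTorus (Fin g)) :
    mFourier n x = ∏ i, ee (n i) (x i) := rfl

/-- the rows of the determinant -/
def NN (y : UnitAddCircle) (k : ℕ) : ℂ := ee ((k : ℤ) + 1) y - ee (-((k : ℤ) + 1)) y

theorem NN_cont (k : ℕ) : Continuous fun y => NN y k := (ee_cont _).sub (ee_cont _)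

theorem NN_units (u : ℤˣ) (y : UnitAddCircle) (k : ℕ) : NN ((u : ℤ) • y) k = (u : ℤ) * NN y k := by
  unfold NN
  rw [ee_smul, ee_smul]
  rcases Int.units_eq_one_or u with rfl | rfl
  · simp
  · simp only [Units.val_neg, Units.val_one, mul_neg, mul_one, neg_neg]
    push_cast
    ring

/-- rescaled Chebyshev polynomials -/
def pp : ℕ → ℂ[X]
  | 0 => 1
  | 1 => X
  | k + 2 => X * pp (k + 1) - pp k

theorem pp_prop (k : ℕ) : ((pp k).natDegree = k ∧ (pp k).Monic) ∧
    ((pp (k + 1)).natDegree = k + 1 ∧ (pp (k + 1)).Monic) := by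
  induction k with
  | zero =>
    refine ⟨⟨?_, ?_⟩, ?_, ?_⟩
    · simp [pp]
    · exact monic_one
    · simp [pp]
    · exact monic_X
  | succ k ih =>
    obtain ⟨⟨h1, h2⟩, h3, h4⟩ := ih
    have e : pp (k + 2) = X * pp (k + 1) - pp k := rfl
    have h5 : (X * pp (k + 1)).natDegree = k + 2 := by
      rw [natDegree_X_mul h4.ne_zero, h3]
    have h6 : (X * pp (k + 1)).Monic := monic_X.mul h4
    have h7 : (pp k).natDegree < (X * pp (k + 1)).natDegree := by rw [h5, h1]; omega
    refine ⟨⟨h3, h4⟩, ?_, ?_⟩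
    · change (pp (k + 2)).natDegree = k + 2
      rw [e, natDegree_sub_eq_left_of_natDegree_lt h7, h5]
    · change (pp (k + 2)).Monic
      rw [e]
      exact h6.sub_of_left (degree_lt_degree h7)

theorem NN_eq' (z w : ℂ) (hzw : z * w = 1) (k : ℕ) :
    z ^ (k + 1) - w ^ (k + 1) = (z - w) * (pp k).eval (z + w) ∧
    z ^ (k + 2) - w ^ (k + 2) = (z - w) * (pp (k + 1)).eval (z + w) := by
  induction k with
  | zero =>
    refine ⟨?_, ?_⟩
    · simp [pp]
    · simp only [pp, eval_X]
      ring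
  | succ k ih =>
    obtain ⟨h1, h2⟩ := ih
    refine ⟨h2, ?_⟩
    have e : pp (k + 1 + 1) = X * pp (k + 1) - pp k := rfl
    rw [e, eval_sub, eval_mul, eval_X]
    have h3 : (z - w) * ((z + w) * (pp (k + 1)).eval (z + w) - (pp k).eval (z + w)) =
        (z + w) * (z ^ (k + 2) - w ^ (k + 2)) - (z ^ (k + 1) - w ^ (k + 1)) := by
      rw [h1, h2]; ring
    rw [h3]
    have h4 : z * w ^ (k + 2) = w ^ (k + 1) := by
      rw [pow_succ' w (k + 1), ← mul_assoc, hzw, one_mul]
    have h5 : w * z ^ (k + 2) = z ^ (k + 1) := by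
      rw [pow_succ' z (k + 1), ← mul_assoc, mul_comm w z, hzw, one_mul]
    linear_combination (-1 : ℂ) * h5 + h4

theorem NN_eq (y : UnitAddCircle) (k : ℕ) :
    NN y k = (ee 1 y - ee (-1) y) * (pp k).eval (ee 1 y + ee (-1) y) := by
  rw [← (NN_eq' _ _ (ee_mul_neg y) k).1, ← ee_pow, ← ee_neg_pow]
  unfold NN
  push_cast
  rfl

/-- the determinant -/
def MM {g : ℕ} (x : UnitAddTorus (Fin g)) : Matrix (Fin g) (Fin g) ℂ :=
  Matrix.of fun i j => NN (x i) j

theorem det_MM {g : ℕ} (x : UnitAddTorus (Fin g)) : (MM x).det =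
    (∏ i, (ee 1 (x i) - ee (-1) (x i))) *
      ∏ i, ∏ j ∈ Ioi i, ((ee 1 (x j) + ee (-1) (x j)) - (ee 1 (x i) + ee (-1) (x i))) := by
  rw [← Matrix.det_vandermonde (fun i => ee 1 (x i) + ee (-1) (x i)),
    Matrix.det_eval_matrixOfPolynomials_eq_det_vandermonde _ (fun j : Fin g => pp j)
      (fun j => (pp_prop j).1.1) (fun j => (pp_prop j).1.2), ← Matrix.det_mul_column]
  congr 1
  ext i j
  simp only [MM, Matrix.of_apply]
  exact NN_eq _ _

theorem prod_pairs {g : ℕ} {M : Type} [CommMonoid M] (f : Fin g → Fin g → M) :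
    ∏ p ∈ (univ.filter fun p : Fin g × Fin g => p.1 < p.2), f p.1 p.2 =
      ∏ i, ∏ j ∈ Ioi i, f i j := by
  rw [prod_filter, Fintype.prod_prod_type]
  refine prod_congr rfl fun i _ => ?_
  rw [← prod_filter]
  refine prod_congr ?_ fun _ _ => rfl
  ext j
  simp

theorem mF_add1 {g : ℕ} (i j : Fin g) (x : UnitAddTorus (Fin g)) :
    mFourier (Pi.single i 1 + Pi.single j 1 : Fin g → ℤ) x = ee 1 (x i) * ee 1 (x j) := by
  rw [mFourier_add, mFourier_single, mFourier_single]
  rfl

theorem mF_sub1 {g : ℕ} (i j : Fin g) (x : UnitAddTorus (Fin g)) :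
    mFourier (Pi.single i 1 - Pi.single j 1 : Fin g → ℤ) x = ee 1 (x i) * ee (-1) (x j) := by
  rw [sub_eq_add_neg, mFourier_add, mFourier_neg, mFourier_single, mFourier_single, ee_neg]
  rfl

theorem mF_two {g : ℕ} (i : Fin g) (x : UnitAddTorus (Fin g)) :
    mFourier (Pi.single i 2 : Fin g → ℤ) x = ee 1 (x i) * ee 1 (x i) := by
  have : (Pi.single i 2 : Fin g → ℤ) = Pi.single i 1 + Pi.single i 1 := by
    rw [← Pi.single_add]
    rfl
  rw [this, mF_add1]

theorem dens_eq {g : ℕ} (x : UnitAddTorus (Fin g)) : dens (sympRoots g) x = ‖(MM x).det‖ ^ 2 := by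
  unfold Pool.Agent.Y798.FC.dens sympRoots
  rw [prod_union, prod_union, prod_image, prod_image, prod_image]
  · simp_rw [mF_two, mF_sub1, mF_add1]
    rw [mul_assoc, ← prod_mul_distrib,
      prod_pairs (fun i j => ‖1 - ee 1 (x i) * ee (-1) (x j)‖ ^ 2 * ‖1 - ee 1 (x i) * ee 1 (x j)‖ ^ 2),
      det_MM, norm_mul, mul_pow, norm_prod, norm_prod, ← prod_pow, ← prod_pow]
    congr 1
    · refine prod_congr rfl fun i _ => ?_
      have h1 : ee (-1) (x i) * (1 - ee 1 (x i) * ee 1 (x i)) = -(ee 1 (x i) - ee (-1) (x i)) := by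
        linear_combination -(ee 1 (x i)) * ee_mul_neg (x i)
      rw [← norm_neg (ee 1 (x i) - ee (-1) (x i)), ← h1, norm_mul, ee_norm, one_mul]
    · refine prod_congr rfl fun i _ => ?_
      rw [norm_prod, ← prod_pow]
      refine prod_congr rfl fun j _ => ?_
      have h1 : (1 - ee 1 (x i) * ee (-1) (x j)) * (1 - ee 1 (x i) * ee 1 (x j)) =
          ee 1 (x i) * -((ee 1 (x j) + ee (-1) (x j)) - (ee 1 (x i) + ee (-1) (x i))) := by
        linear_combination (ee 1 (x i)) ^ 2 * ee_mul_neg (x j) - ee_mul_neg (x i)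
      rw [← mul_pow, ← norm_mul, h1, norm_mul, norm_neg, ee_norm, one_mul]
  · rintro ⟨i, j⟩ hp ⟨i', j'⟩ hp' h
    simp only [coe_filter, mem_univ, true_and, Set.mem_setOf_eq] at hp hp'
    have h1 := congrFun h i
    have h2 := congrFun h j
    simp only [Pi.add_apply, Pi.single_apply] at h1 h2
    rw [Prod.mk.injEq]
    split_ifs at h1 h2 <;> first | omega | (constructor <;> first | assumption | omega) | (subst_vars; simp_all)
  · rintro ⟨i, j⟩ hp ⟨i', j'⟩ hp' h
    simp only [coe_filter, mem_univ, true_and, Set.mem_setOf_eq] at hp hp'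
    have h1 := congrFun h i
    have h2 := congrFun h j
    simp only [Pi.sub_apply, Pi.single_apply] at h1 h2
    rw [Prod.mk.injEq]
    split_ifs at h1 h2 <;> first | omega | (constructor <;> first | assumption | omega) | (subst_vars; simp_all)
  · intro i _ j _ h
    have h1 := congrFun h i
    simp only [Pi.single_apply] at h1
    split_ifs at h1 <;> first | assumption | omega | (subst_vars; simp_all)
  · rw [disjoint_left]
    intro a ha hb
    simp only [mem_image, mem_univ, true_and, mem_filter, Prod.exists] at ha hb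
    obtain ⟨i, rfl⟩ := ha
    obtain ⟨i', j', hij, h⟩ := hb
    have h1 := congrFun h i
    simp only [Pi.sub_apply, Pi.single_apply] at h1
    split_ifs at h1 <;> omega
  · rw [disjoint_left]
    intro a ha hb
    simp only [mem_image, mem_univ, true_and, mem_filter, Prod.exists, mem_union] at ha hb
    obtain ⟨i', j', hij, h⟩ := hb
    rcases ha with ⟨i, rfl⟩ | ⟨i, j, hij2, rfl⟩
    · have h1 := congrFun h i
      simp only [Pi.add_apply, Pi.single_apply] at h1
      split_ifs at h1 <;> omega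
    · have h1 := congrFun h j
      simp only [Pi.add_apply, Pi.sub_apply, Pi.single_apply] at h1
      split_ifs at h1 <;> omega

/-- the elements of the group -/
def mk {g : ℕ} (σ : Equiv.Perm (Fin g)) (s : Fin g → ℤˣ) : Auts (Fin g) where
  toFun x := fun j => s j * x (σ j)
  map_add' x y := by ext j; simp [mul_add]
  map_smul' c x := by ext j; simp [mul_left_comm]
  invFun x := fun j => s (σ⁻¹ j) * x (σ⁻¹ j)
  left_inv x := by
    ext j
    have h3 : σ (σ⁻¹ j) = j := by simp
    simp only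
    rw [h3, ← mul_assoc, ← Units.val_mul, Int.units_mul_self]
    simp
  right_inv x := by
    ext j
    have h3 : σ⁻¹ (σ j) = j := by simp
    simp only
    rw [h3, ← mul_assoc, ← Units.val_mul, Int.units_mul_self]
    simp

theorem mk_apply {g : ℕ} (σ : Equiv.Perm (Fin g)) (s : Fin g → ℤˣ) (x : Fin g → ℤ) (j : Fin g) :
    mk σ s x j = s j * x (σ j) := rfl

/-- signed permutations -/
def toW (g : ℕ) (p : Equiv.Perm (Fin g) × (Fin g → ℤˣ)) : sympW g :=
  ⟨mk p.1 p.2, p.1, p.2, fun _ _ => rfl⟩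

theorem toW_bij (g : ℕ) : Function.Bijective (toW g) := by
  constructor
  · rintro ⟨σ, s⟩ ⟨σ', s'⟩ h
    have h0 : ∀ (x : Fin g → ℤ) (j : Fin g), (s j : ℤ) * x (σ j) = s' j * x (σ' j) := by
      intro x j
      have h1 := congrArg (fun w : sympW g => (w : Auts (Fin g)) x j) h
      exact h1
    have hσ : ∀ j, σ j = σ' j := by
      intro j
      have h1 := h0 (Pi.single (σ j) 1) j
      rw [Pi.single_eq_same, Pi.single_apply] at h1
      by_contra hne
      rw [if_neg (fun h => hne h.symm), mul_one, mul_zero] at h1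
      exact (s j).ne_zero h1
    have hσ' : σ = σ' := Equiv.ext hσ
    have hs : s = s' := by
      funext j
      have h1 := h0 1 j
      simp only [Pi.one_apply, mul_one] at h1
      exact Units.ext h1
    rw [hσ', hs]
  · rintro ⟨w, σ, s, h⟩
    refine ⟨(σ, s), Subtype.ext (LinearEquiv.ext fun x => funext fun j => ?_)⟩
    exact (h x j).symm

theorem card_W (g : ℕ) : Nat.card (sympW g) = g.factorial * 2 ^ g := by
  rw [← Nat.card_congr (Equiv.ofBijective _ (toW_bij g)), Nat.card_prod, Nat.card_eq_fintype_card,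
    Fintype.card_perm, Fintype.card_fin, Nat.card_eq_fintype_card, Fintype.card_fun,
    Fintype.card_fin]
  rfl

theorem act_eq {g : ℕ} {w : Auts (Fin g)} {σ : Equiv.Perm (Fin g)} {s : Fin g → ℤˣ}
    (h : ∀ (x : Fin g → ℤ) (j : Fin g), w x j = s j * x (σ j)) (x : UnitAddTorus (Fin g))
    (j : Fin g) : act w x j = (s (σ⁻¹ j) : ℤ) • x (σ⁻¹ j) := by
  have e : act w x j = ∑ i, (w (Pi.single j (1 : ℤ)) i) • x i := by
    unfold act
    refine Finset.sum_congr rfl fun i _ => ?_
    have hp : @Pi.single (Fin g) (fun _ => ℤ) _ (fun a b => Classical.propDecidable (a = b)) j 1 =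
        Pi.single j (1 : ℤ) := by
      funext k
      by_cases hk : k = j
      · subst hk
        simp
      · simp [hk]
    rw [hp]
  rw [e]
  simp only [h]
  rw [Finset.sum_eq_single (σ⁻¹ j)]
  · have h3 : σ (σ⁻¹ j) = j := by simp
    rw [h3, Pi.single_eq_same, mul_one]
  · intro i _ hi
    rw [Pi.single_apply, if_neg, mul_zero, zero_smul]
    intro hc
    apply hi
    rw [← hc]
    simp
  · intro hc
    exact absurd (mem_univ _) hc

theorem inv_W {g : ℕ} (w : Auts (Fin g)) (hw : w ∈ sympW g) (x : UnitAddTorus (Fin g)) :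
    dens (sympRoots g) (act w x) = dens (sympRoots g) x := by
  obtain ⟨σ, s, h⟩ := hw
  rw [dens_eq, dens_eq]
  have h1 : MM (act w x) = Matrix.of fun i j => ((s (σ⁻¹ i) : ℤ) : ℂ) *
      ((MM x).submatrix (σ⁻¹ : Equiv.Perm (Fin g)) id) i j := by
    ext i j
    simp only [MM, Matrix.of_apply, Matrix.submatrix_apply, id_eq]
    rw [act_eq h, NN_units]
  rw [h1, Matrix.det_mul_column, Matrix.det_permute, norm_mul, norm_mul, norm_prod]
  have h2 : ∀ u : ℤˣ, ‖((u : ℤ) : ℂ)‖ = 1 := by
    intro u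
    rcases Int.units_eq_one_or u with rfl | rfl <;> simp
  rw [h2, one_mul, prod_congr rfl fun i _ => h2 _, prod_const_one, one_mul]

theorem int_ee (n : ℤ) : ∫ y, ee n y ∂(AddCircle.haarAddCircle : Measure UnitAddCircle) =
    if n = 0 then 1 else 0 := by
  split_ifs with h
  · subst h
    simp [ee_zero]
  · exact integral_eq_zero_of_add_right_eq_neg (μ := AddCircle.haarAddCircle)
      (fourier_add_half_inv_index h (by norm_num : (0 : ℝ) < 1))

theorem ee_int (n : ℤ) : Integrable (ee n) (AddCircle.haarAddCircle : Measure UnitAddCircle) :=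
  (ee_cont n).integrable_of_hasCompactSupport (HasCompactSupport.of_compactSpace _)

theorem int_NN (a b : ℕ) :
    ∫ y, NN y a * starRingEnd ℂ (NN y b) ∂(AddCircle.haarAddCircle : Measure UnitAddCircle) =
      if a = b then 2 else 0 := by
  have h1 : ∀ y, NN y a * starRingEnd ℂ (NN y b) =
      ((ee ((a : ℤ) - b) y - ee ((a : ℤ) + b + 2) y) - ee (-((a : ℤ) + b + 2)) y) +
        ee ((b : ℤ) - a) y := by
    intro y
    unfold NN
    rw [map_sub, ← ee_neg, ← ee_neg, neg_neg, sub_mul, mul_sub, mul_sub, ← ee_add, ← ee_add,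
      ← ee_add, ← ee_add]
    have e1 : (a : ℤ) + 1 + -((b : ℤ) + 1) = a - b := by ring
    have e2 : (a : ℤ) + 1 + ((b : ℤ) + 1) = a + b + 2 := by ring
    have e3 : -((a : ℤ) + 1) + -((b : ℤ) + 1) = -(a + b + 2) := by ring
    have e4 : -((a : ℤ) + 1) + ((b : ℤ) + 1) = b - a := by ring
    rw [e1, e2, e3, e4]
    ring
  simp_rw [h1]
  refine (integral_add (((ee_int _).sub (ee_int _)).sub (ee_int _)) (ee_int _)).trans ?_
  rw [integral_sub' ((ee_int _).sub (ee_int _)) (ee_int _), integral_sub' (ee_int _) (ee_int _),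
    int_ee, int_ee, int_ee, int_ee]
  have h2 : ¬ ((a : ℤ) + b + 2 = 0) := by omega
  have h3 : ¬ (-((a : ℤ) + b + 2) = 0) := by omega
  rw [if_neg h2, if_neg h3]
  by_cases hab : a = b
  · rw [if_pos hab, if_pos (by omega), if_pos (by omega)]
    norm_num
  · rw [if_neg hab, if_neg (by omega), if_neg (by omega)]
    norm_num

theorem det_sq {g : ℕ} (x : UnitAddTorus (Fin g)) : ((‖(MM x).det‖ ^ 2 : ℝ) : ℂ) =
    ∑ τ : Equiv.Perm (Fin g), ∑ τ' : Equiv.Perm (Fin g),
      (((Equiv.Perm.sign τ : ℤ) : ℂ) * ((Equiv.Perm.sign τ' : ℤ) : ℂ)) *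
        ∏ i, (NN (x i) (τ i) * starRingEnd ℂ (NN (x i) (τ' i))) := by
  have h1 : (MM x).det = ∑ τ : Equiv.Perm (Fin g), ((Equiv.Perm.sign τ : ℤ) : ℂ) *
      ∏ i, NN (x i) (τ i) := by
    rw [← Matrix.det_transpose, Matrix.det_apply']
    rfl
  have h2 : ((‖(MM x).det‖ ^ 2 : ℝ) : ℂ) = (MM x).det * starRingEnd ℂ (MM x).det := by
    rw [Complex.mul_conj, Complex.normSq_eq_norm_sq]
  rw [h2, h1, map_sum, sum_mul_sum]
  refine sum_congr rfl fun τ _ => sum_congr rfl fun τ' _ => ?_
  rw [map_mul, map_prod, prod_mul_distrib, map_intCast]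
  ring

theorem mass_W (g : ℕ) : ∫ x, dens (sympRoots g) x ∂(vol (Fin g)) = Nat.card (sympW g) := by
  have h0 : ((∫ x, dens (sympRoots g) x ∂(vol (Fin g)) : ℝ) : ℂ) = ((Nat.card (sympW g) : ℝ) : ℂ) := by
    rw [← integral_complex_ofReal]
    simp_rw [dens_eq]
    have h1 : ∀ x : UnitAddTorus (Fin g), ((‖(MM x).det‖ ^ 2 : ℝ) : ℂ) = _ := fun x => det_sq x
    simp_rw [h1]
    unfold vol
    have hc : ∀ τ τ' : Equiv.Perm (Fin g), Integrable (fun x : UnitAddTorus (Fin g) =>
        (((Equiv.Perm.sign τ : ℤ) : ℂ) * ((Equiv.Perm.sign τ' : ℤ) : ℂ)) *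
        ∏ i, (NN (x i) (τ i) * starRingEnd ℂ (NN (x i) (τ' i))))
        (Measure.pi fun _ => (AddCircle.haarAddCircle : Measure UnitAddCircle)) := by
      intro τ τ'
      refine Continuous.integrable_of_hasCompactSupport ?_ (HasCompactSupport.of_compactSpace _)
      refine continuous_const.mul (continuous_finset_prod _ fun i _ => ?_)
      exact ((NN_cont _).comp (continuous_apply i)).mul
        (Complex.continuous_conj.comp ((NN_cont _).comp (continuous_apply i)))
    rw [integral_finsetSum _ fun τ _ => integrable_finsetSum _ fun τ' _ => hc τ τ']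
    simp_rw [integral_finsetSum _ fun τ' _ => hc _ τ']
    have h2 : ∀ τ τ' : Equiv.Perm (Fin g), ∫ x : UnitAddTorus (Fin g),
        (((Equiv.Perm.sign τ : ℤ) : ℂ) * ((Equiv.Perm.sign τ' : ℤ) : ℂ)) *
        ∏ i, (NN (x i) (τ i) * starRingEnd ℂ (NN (x i) (τ' i)))
        ∂(Measure.pi fun _ => (AddCircle.haarAddCircle : Measure UnitAddCircle)) =
        if τ = τ' then 2 ^ g else 0 := by
      intro τ τ'
      rw [integral_const_mul, integral_fintype_prod_eq_prod
        (fun i y => NN y (τ i) * starRingEnd ℂ (NN y (τ' i)))]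
      simp_rw [int_NN]
      split_ifs with h
      · subst h
        simp only [if_true, prod_const, card_univ, Fintype.card_fin]
        rcases Int.units_eq_one_or (Equiv.Perm.sign τ) with h3 | h3 <;> rw [h3] <;> simp
      · obtain ⟨i, hi⟩ : ∃ i, τ i ≠ τ' i := by
          by_contra hcon
          push Not at hcon
          exact h (Equiv.ext hcon)
        rw [prod_eq_zero (mem_univ i), mul_zero]
        rw [if_neg]
        intro hc
        exact hi (Fin.ext hc)
    simp_rw [h2]
    rw [card_W]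
    simp only [sum_ite_eq, mem_univ, if_true, sum_const, card_univ, Fintype.card_perm,
      Fintype.card_fin, nsmul_eq_mul]
    push_cast
    rfl
  exact_mod_cast h0

theorem t : StmC := by
  intro g
  refine ⟨?_, ?_, inv_W, mass_W g⟩
  · exact Finite.of_surjective _ (toW_bij g).2
  · intro α hα
    unfold sympRoots at hα
    simp only [mem_image, mem_univ, true_and, mem_filter, Prod.exists, mem_union] at hα
    rintro rfl
    rcases hα with (⟨i, h⟩ | ⟨i, j, hij, h⟩) | ⟨i, j, hij, h⟩
    · have h1 := congrFun h i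
      simp at h1
    · have h1 := congrFun h i
      simp only [Pi.sub_apply, Pi.single_apply, Pi.zero_apply] at h1
      split_ifs at h1 <;> omega
    · have h1 := congrFun h i
      simp only [Pi.add_apply, Pi.single_apply, Pi.zero_apply] at h1
      split_ifs at h1 <;> omega

end

end Pool.Agent.Y674.FC
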